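import Pool.Agent.L7h56.SM.Lin
import Pool.Agent.L7h70.SM.Stm
import Pool.Agent.Y264.QR.All

/-!
# Project SM, part CMP: comparison of the eigenvalues of two close metrics
-/

set_option autoImplicit false

open Set Filter Topology MeasureTheory
open scoped Real ContDiff
open Pool.Agent.Y262.QE Pool.Agent.Y264.QR Pool.Agent.L7h70.SM

noncomputable section

namespace Pool.Agent.L7h56.SM

open Pool.Agent.Y708.QE (pc_disj pc_ex gr_eq pc_meas mem_T)

section

variable {M : Type} [MetricSpace M] [CompactSpace M] [MeasurableSpace M] [BorelSpace M]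
  {D : Data M} {A B : Fin D.N → ℂ → ℂ →L[ℝ] ℂ} {μ ν : Measure M} {ε : ℝ}

omit [MetricSpace M] [CompactSpace M] [MeasurableSpace M] [BorelSpace M] in
theorem near_symm (h : Near D ε A B) : Near D ε B A := fun i z hz v => (h i z hz v).symm

theorem area_le (hA : (mk D A).IsSurf μ) (hB : (mk D B).IsSurf ν) (h : Near D ε A B) :
    ν ≤ ENNReal.ofReal (Real.exp (2 * ε)) • μ := by
  rw [Measure.le_iff]
  intro S hS
  have hpc : ∀ i, MeasurableSet (S ∩ (mk D A).pc i) := fun i => hS.inter (pc_meas hA i)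
  have e : S = ⋃ i, S ∩ (mk D A).pc i := by
    ext x
    constructor
    · intro hx
      obtain ⟨i, hi⟩ := pc_ex hA x
      exact mem_iUnion.2 ⟨i, hx, hi⟩
    · intro hx
      obtain ⟨i, hi⟩ := mem_iUnion.1 hx
      exact hi.1
  have hdisj : Pairwise (Function.onFun Disjoint fun i => S ∩ (mk D A).pc i) := by
    intro i j hij
    rw [Function.onFun, Set.disjoint_left]
    intro x hx hx'
    exact hij (pc_disj hx.2 hx'.2)
  have h1 : ∀ i, ν (S ∩ (mk D A).pc i) ≤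
      ENNReal.ofReal (Real.exp (2 * ε)) * μ (S ∩ (mk D A).pc i) := by
    intro i
    have hsub : S ∩ (mk D A).pc i ⊆ (mk D A).U i := fun x hx => hx.2.1
    have hsub' : S ∩ (mk D A).pc i ⊆ (mk D B).U i := fun x hx => hx.2.1
    rw [hB.area i _ hsub' (hpc i), hA.area i _ hsub (hpc i),
      ← lintegral_const_mul' _ _ ENNReal.ofReal_ne_top]
    have hm : MeasurableSet ((mk D A).φ i '' (S ∩ (mk D A).pc i)) :=
      Pool.Agent.Y960.QE.meas_im hA i hsub (hpc i)
    refine setLIntegral_mono' hm fun z hz => ?_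
    have hz' : z ∈ D.T i := image_mono hsub hz
    rw [← ENNReal.ofReal_mul (Real.exp_pos _).le]
    apply ENNReal.ofReal_le_ofReal
    have h2 := det_le (hA.det i z hz') (Real.exp_pos ε).le fun v => (h i z hz' v).2
    have h3 : Real.exp (2 * ε) = Real.exp ε ^ 2 := by
      rw [← Real.exp_nat_mul]; norm_num
    rw [h3]
    exact h2
  have e1 : ν S = ∑ i, ν (S ∩ (mk D A).pc i) := by
    conv_lhs => rw [e]
    rw [measure_iUnion hdisj hpc, tsum_fintype]
  have e2 : μ S = ∑ i, μ (S ∩ (mk D A).pc i) := by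
    conv_lhs => rw [e]
    rw [measure_iUnion hdisj hpc, tsum_fintype]
  rw [Measure.smul_apply, smul_eq_mul, e1, e2, Finset.mul_sum]
  exact Finset.sum_le_sum fun i _ => h1 i

omit [CompactSpace M] [BorelSpace M] [MetricSpace M] in
theorem int_le {c : ℝ} (hc : 0 ≤ c) (h : ν ≤ ENNReal.ofReal c • μ) {f : M → ℝ}
    (hf : ∀ x, 0 ≤ f x) (hi : Integrable f μ) : ∫ x, f x ∂ν ≤ c * ∫ x, f x ∂μ := by
  have h1 : Integrable f (ENNReal.ofReal c • μ) := hi.smul_measure ENNReal.ofReal_ne_top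
  have h2 := integral_mono_measure h (Eventually.of_forall hf) h1
  rwa [integral_smul_measure, ENNReal.toReal_ofReal hc, smul_eq_mul] at h2

theorem gr_sum_le (hA : (mk D A).IsSurf μ) (hB : (mk D B).IsSurf ν) (h : Near D ε A B) {n : ℕ}
    (c : Fin n → ℝ) (F : Fin n → M → ℝ) (x : M) :
    ‖∑ k, c k • (mk D B).gr (F k) x‖ ≤ Real.exp ε * ‖∑ k, c k • (mk D A).gr (F k) x‖ := by
  obtain ⟨i, hi⟩ := pc_ex hA x
  have hi' : x ∈ (mk D B).pc i := hi
  have hz : D.φ i x ∈ D.T i := ⟨x, hi.1, rfl⟩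
  have e1 : ∑ k, c k • (mk D B).gr (F k) x = grd (B i (D.φ i x)) (∑ k, c k • D.dc i (F k) x) := by
    rw [grd_sum]
    refine Finset.sum_congr rfl fun k _ => ?_
    rw [gr_eq hi']
    rfl
  have e2 : ∑ k, c k • (mk D A).gr (F k) x = grd (A i (D.φ i x)) (∑ k, c k • D.dc i (F k) x) := by
    rw [grd_sum]
    refine Finset.sum_congr rfl fun k _ => ?_
    rw [gr_eq hi]
    rfl
  rw [e1, e2]
  exact grd_le (hA.det i _ hz) (hB.det i _ hz) (fun v => (h i _ hz v).1) _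

/-- the forms of a surface -/
theorem forms [Nonempty M] (hD : D.IsSurf μ) {u : ℕ → M → ℝ} {lam : ℕ → ℝ}
    (hu : EigBasis D μ u lam) :
    ∃ (a b : HF D μ →L[ℝ] HF D μ →L[ℝ] ℝ) (e : ℕ → HF D μ), Fm a b ∧ Eg a b e lam ∧
      (∀ (v : HF D μ) (F : M → ℝ), (v.1.fst : M → ℝ) =ᵐ[μ] F → b v v = ∫ x, (F x) ^ 2 ∂μ) ∧
      ∀ (v : HF D μ) (G : M → ℂ), (v.1.snd : M → ℂ) =ᵐ[μ] G → a v v = ∫ x, ‖G x‖ ^ 2 ∂μ := by
  obtain ⟨hf, -⟩ := tFin M μ D hD
  haveI := hf
  obtain ⟨i, a, hSf, hi, ha⟩ := tPackF M μ D hD inferInstance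
  obtain ⟨b, hB, hF, -⟩ := tFm M μ (HF D μ) i a hSf
  have e1 : D.conf (fun x => Real.exp ((0 : C(M, ℝ)) x)) = D := by
    simp [Data.conf]
  have e2 : wm μ (fun x => Real.exp ((0 : C(M, ℝ)) x)) = μ := by
    simp [wm]
  have hu' : EigBasis (D.conf fun x => Real.exp ((0 : C(M, ℝ)) x))
      (wm μ fun x => Real.exp ((0 : C(M, ℝ)) x)) u lam := by
    rw [e1, e2]
    exact hu
  obtain ⟨e, -, he⟩ := tBr M μ D hD i a b hSf hi ha hB hF 0 u lam hu'
  refine ⟨a, b 0, e, hF 0, he, fun v F hvF => ?_, fun v G hG => ?_⟩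
  · rw [hB 0 v v, hi v]
    refine integral_congr_ae ?_
    filter_upwards [hvF] with x hx
    rw [hx, pow_two]
    simp
  · rw [ha v v, L2.inner_def]
    refine integral_congr_ae ?_
    filter_upwards [hG] with x hx
    rw [hx, real_inner_self_eq_norm_sq]

omit [CompactSpace M] [BorelSpace M] in
/-- linear combinations in the form domain -/
theorem comb {n : ℕ} (c : Fin n → ℝ) (w : Fin n → HF D μ) (F : Fin n → M → ℝ)
    (h1 : ∀ k, ((w k).1.fst : M → ℝ) =ᵐ[μ] F k) (h2 : ∀ k, ((w k).1.snd : M → ℂ) =ᵐ[μ] D.gr (F k)) :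
    ((∑ k, c k • w k : HF D μ).1.fst : M → ℝ) =ᵐ[μ] (fun x => ∑ k, c k * F k x) ∧
    ((∑ k, c k • w k : HF D μ).1.snd : M → ℂ) =ᵐ[μ] fun x => ∑ k, c k • D.gr (F k) x := by
  have e1 : (∑ k, c k • w k : HF D μ).1 = ∑ k, c k • (w k).1 := by
    rw [AddSubmonoidClass.coe_finset_sum]
    rfl
  constructor
  · have h3 : (∑ k, c k • w k : HF D μ).1.fst = ∑ k, c k • (w k).1.fst := by
      rw [e1]
      change (WithLp.fstₗ (𝕜 := ℝ) 2 (Lp ℝ 2 μ) (Lp ℂ 2 μ)) (∑ k, c k • (w k).1) = _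
      rw [map_sum]
      refine Finset.sum_congr rfl fun k _ => ?_
      rw [map_smul]
      rfl
    rw [h3]
    have h4 := Pool.Agent.Y378.QR.coe_sum c (fun k => (w k).1.fst) F h1 Finset.univ
    refine h4.trans (Eventually.of_forall fun x => ?_)
    simp only [smul_eq_mul]
  · have h3 : (∑ k, c k • w k : HF D μ).1.snd = ∑ k, c k • (w k).1.snd := by
      rw [e1]
      change (WithLp.sndₗ (𝕜 := ℝ) 2 (Lp ℝ 2 μ) (Lp ℂ 2 μ)) (∑ k, c k • (w k).1) = _
      rw [map_sum]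
      refine Finset.sum_congr rfl fun k _ => ?_
      rw [map_smul]
      rfl
    rw [h3]
    exact Pool.Agent.Y378.QR.coe_sum c (fun k => (w k).1.snd) (fun k => D.gr (F k)) h2 Finset.univ

theorem int_sq (hD : D.IsSurf μ) {n : ℕ} (c : Fin n → ℝ) {F : Fin n → M → ℝ}
    (hF : ∀ k, D.C1 (F k)) :
    Integrable (fun x => (∑ k, c k * F k x) ^ 2) μ ∧
    Integrable (fun x => ‖∑ k, c k • D.gr (F k) x‖ ^ 2) μ := by
  haveI := (tFin M μ D hD).1
  have hG := fun k => (tGr M μ D hD).1 (F k) (hF k)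
  constructor
  · have hc : Continuous fun x => (∑ k, c k * F k x) ^ 2 := by
      have := fun k => (hG k).1
      fun_prop
    exact hc.integrable_of_hasCompactSupport (HasCompactSupport.of_compactSpace _)
  · choose C hC using fun k => (hG k).2.2
    have hm : Measurable fun x => ‖∑ k, c k • D.gr (F k) x‖ ^ 2 := by
      have h1 : Measurable fun x => ∑ k, c k • D.gr (F k) x :=
        Finset.measurable_sum _ fun k _ => ((hG k).2.1).const_smul (c k)
      exact h1.norm.pow_const 2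
    refine Integrable.of_bound hm.aestronglyMeasurable ((∑ k, |c k| * C k) ^ 2)
      (Eventually.of_forall fun x => ?_)
    rw [Real.norm_eq_abs, abs_of_nonneg (sq_nonneg _)]
    refine pow_le_pow_left₀ (norm_nonneg _) ?_ 2
    refine (norm_sum_le _ _).trans (Finset.sum_le_sum fun k _ => ?_)
    rw [norm_smul, Real.norm_eq_abs]
    exact mul_le_mul_of_nonneg_left (hC k x) (abs_nonneg _)

/-- the comparison up to `η` -/
theorem cmp_eta [Nonempty M] (hA : (mk D A).IsSurf μ) (hB : (mk D B).IsSurf ν)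
    (h : Near D ε A B) {u : ℕ → M → ℝ} {lam : ℕ → ℝ} (hu : EigBasis (mk D A) μ u lam)
    {u' : ℕ → M → ℝ} {lam' : ℕ → ℝ} (hu' : EigBasis (mk D B) ν u' lam') (k : ℕ) :
    0 ≤ lam k ∧ ∀ η : ℝ, 0 < η → η < 1 →
      lam' k ≤ Real.exp (6 * ε) * ((lam k + η) / (1 - η)) := by
  obtain ⟨a, b, e, hFm, hE, hb, ha⟩ := forms hA hu
  obtain ⟨a', b', e', hFm', hE', hb', ha'⟩ := forms hB hu'
  obtain ⟨hDen1, hDen2⟩ := tDenF M μ (mk D A) hA
  obtain ⟨hDen1', hDen2'⟩ := tDenF M ν (mk D B) hB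
  have hlam : 0 ≤ lam k := by
    have h1 := hE.eig k (e k)
    rw [hE.orth, if_pos rfl, mul_one] at h1
    rw [← h1]
    exact hFm.na _
  refine ⟨hlam, fun η hη hη1 => ?_⟩
  have h1η : 0 < 1 - η := by linarith
  have hνμ := area_le hA hB h
  have hμν := area_le hB hA (near_symm h)
  have hmm : Ev a' b' k = lam' k := Pool.Agent.Y592.QE.mm _ a' b' hFm' e' lam' hE' k
  rw [← hmm]
  -- the approximations
  choose F f hF hf using fun i : Fin (k + 1) => hDen2 (e i).1 (e i).2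
  have hft : ∀ i : Fin (k + 1), Tendsto (fun n => (⟨f i n, (hF i n).2.1⟩ : HF (mk D A) μ)) atTop
      (𝓝 (e i)) := by
    intro i
    rw [tendsto_subtype_rng]
    exact hf i
  obtain ⟨n, hn⟩ := (approx hE k (fun i n => (⟨f i n, (hF i n).2.1⟩ : HF (mk D A) μ)) hft hη).exists
  -- the elements of the second form domain
  have hC : ∀ i : Fin (k + 1), (mk D B).C1 (F i n) := fun i => (hF i n).1
  choose w hw hw1 hw2 using fun i : Fin (k + 1) => hDen1' (F i n) (hC i)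
  have I1 := fun c : Fin (k + 1) → ℝ => int_sq hA c fun i => (hF i n).1
  have I2 := fun c : Fin (k + 1) → ℝ => int_sq hB c hC
  have q1 : ∀ c : Fin (k + 1) → ℝ,
      (1 - η) * ∑ i, (c i) ^ 2 ≤ ∫ x, (∑ i, c i * F i n x) ^ 2 ∂μ ∧
      ∫ x, ‖∑ i, c i • (mk D A).gr (F i n) x‖ ^ 2 ∂μ ≤ (lam k + η) * ∑ i, (c i) ^ 2 := by
    intro c
    have h1 := hn c
    obtain ⟨h2, h3⟩ := comb c (fun i => (⟨f i n, (hF i n).2.1⟩ : HF (mk D A) μ))
      (fun i => F i n) (fun i => (hF i n).2.2.1) (fun i => (hF i n).2.2.2)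
    rw [hb _ _ h2, ha _ _ h3] at h1
    exact h1
  have q2 : ∀ c : Fin (k + 1) → ℝ,
      ∫ x, (∑ i, c i * F i n x) ^ 2 ∂μ ≤
        Real.exp (2 * ε) * ∫ x, (∑ i, c i * F i n x) ^ 2 ∂ν := fun c =>
    int_le (Real.exp_pos _).le hμν (fun x => sq_nonneg _) (I2 c).1
  have q3 : ∀ c : Fin (k + 1) → ℝ,
      ∫ x, ‖∑ i, c i • (mk D B).gr (F i n) x‖ ^ 2 ∂ν ≤
        Real.exp (4 * ε) * ∫ x, ‖∑ i, c i • (mk D A).gr (F i n) x‖ ^ 2 ∂μ := by
    intro c
    have h1 : ∫ x, ‖∑ i, c i • (mk D B).gr (F i n) x‖ ^ 2 ∂ν ≤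
        Real.exp (2 * ε) * ∫ x, ‖∑ i, c i • (mk D B).gr (F i n) x‖ ^ 2 ∂μ := by
      refine int_le (Real.exp_pos _).le hνμ (fun x => sq_nonneg _) ?_
      refine ((I1 c).2.const_mul (Real.exp ε ^ 2)).mono' ?_ (Eventually.of_forall fun x => ?_)
      · have hm : Measurable fun x => ∑ i, c i • (mk D B).gr (F i n) x :=
          Finset.measurable_sum _ fun i _ =>
            ((tGr M ν (mk D B) hB).1 (F i n) (hC i)).2.1.const_smul (c i)
        exact (hm.norm.pow_const 2).aestronglyMeasurable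
      · rw [Real.norm_eq_abs, abs_of_nonneg (sq_nonneg _), ← mul_pow]
        exact pow_le_pow_left₀ (norm_nonneg _) (gr_sum_le hA hB h c (fun i => F i n) x) 2
    have h2 : ∫ x, ‖∑ i, c i • (mk D B).gr (F i n) x‖ ^ 2 ∂μ ≤
        Real.exp (2 * ε) * ∫ x, ‖∑ i, c i • (mk D A).gr (F i n) x‖ ^ 2 ∂μ := by
      rw [← integral_const_mul]
      refine integral_mono_of_nonneg (Eventually.of_forall fun x => sq_nonneg _)
        ((I1 c).2.const_mul _) (Eventually.of_forall fun x => ?_)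
      have h3 : Real.exp (2 * ε) = Real.exp ε ^ 2 := by
        rw [← Real.exp_nat_mul]; norm_num
      show _ ≤ Real.exp (2 * ε) * _
      rw [h3, ← mul_pow]
      exact pow_le_pow_left₀ (norm_nonneg _) (gr_sum_le hA hB h c (fun i => F i n) x) 2
    refine h1.trans ((mul_le_mul_of_nonneg_left h2 (Real.exp_pos _).le).trans (le_of_eq ?_))
    rw [← mul_assoc, ← Real.exp_add]
    congr 2
    ring
  have p1 : ∀ c : Fin (k + 1) → ℝ,
      (1 - η) / Real.exp (2 * ε) * ∑ i, (c i) ^ 2 ≤ ∫ x, (∑ i, c i * F i n x) ^ 2 ∂ν := by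
    intro c
    have h1 := (q1 c).1.trans (q2 c)
    rw [div_mul_eq_mul_div, div_le_iff₀ (Real.exp_pos _)]
    linarith
  have hc6 : Real.exp (6 * ε) = Real.exp (4 * ε) * Real.exp (2 * ε) := by
    rw [← Real.exp_add]
    congr 1
    ring
  refine Pool.Agent.Y378.QR.ev_upper (fun i => (⟨w i, hw i⟩ : HF (mk D B) ν))
    (δ := (1 - η) / Real.exp (2 * ε)) (by positivity) (by positivity) ?_ ?_ le_rfl
  · intro c
    obtain ⟨h2, h3⟩ := comb c (fun i => (⟨w i, hw i⟩ : HF (mk D B) ν)) (fun i => F i n) hw1 hw2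
    rw [hb' _ _ h2]
    exact p1 c
  · intro c
    obtain ⟨h2, h3⟩ := comb c (fun i => (⟨w i, hw i⟩ : HF (mk D B) ν)) (fun i => F i n) hw1 hw2
    rw [hb' _ _ h2, ha' _ _ h3]
    have h4 := p1 c
    have h5 : ∑ i, (c i) ^ 2 ≤
        Real.exp (2 * ε) / (1 - η) * ∫ x, (∑ i, c i * F i n x) ^ 2 ∂ν := by
      rw [div_mul_eq_mul_div, le_div_iff₀ h1η]
      rw [div_mul_eq_mul_div, div_le_iff₀ (Real.exp_pos _)] at h4
      linarith
    calc ∫ x, ‖∑ i, c i • (mk D B).gr (F i n) x‖ ^ 2 ∂ν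
        ≤ Real.exp (4 * ε) * ((lam k + η) * ∑ i, (c i) ^ 2) :=
          (q3 c).trans (mul_le_mul_of_nonneg_left (q1 c).2 (Real.exp_pos _).le)
      _ ≤ Real.exp (4 * ε) * ((lam k + η) * (Real.exp (2 * ε) / (1 - η) *
            ∫ x, (∑ i, c i * F i n x) ^ 2 ∂ν)) := by gcongr
      _ = _ := by
          rw [hc6]
          ring

end

theorem s_CMP : S_CMP := by
  intro M _ _ _ _ _ D A B μ ν hA hB ε hε h
  constructor
  · haveI := (tFin M μ (mk D A) hA).1
    have h1 := area_le hA hB h univ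
    rw [Measure.smul_apply, smul_eq_mul] at h1
    have h2 := ENNReal.toReal_mono (ENNReal.mul_ne_top ENNReal.ofReal_ne_top (measure_ne_top μ univ)) h1
    rwa [ENNReal.toReal_mul, ENNReal.toReal_ofReal (Real.exp_pos _).le] at h2
  · intro u lam hu u' lam' hu' k
    obtain ⟨h0, h1⟩ := cmp_eta hA hB h hu hu' k
    have hcont : Tendsto (fun η : ℝ => Real.exp (6 * ε) * ((lam k + η) / (1 - η))) (𝓝[>] 0)
        (𝓝 (Real.exp (6 * ε) * lam k)) := by
      have h2 : ContinuousAt (fun η : ℝ => Real.exp (6 * ε) * ((lam k + η) / (1 - η))) 0 := by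
        refine ContinuousAt.mul continuousAt_const (ContinuousAt.div (by fun_prop) (by fun_prop) ?_)
        norm_num
      have h3 : Tendsto (fun η : ℝ => Real.exp (6 * ε) * ((lam k + η) / (1 - η))) (𝓝 0)
          (𝓝 (Real.exp (6 * ε) * ((lam k + 0) / (1 - 0)))) := h2
      rw [add_zero, sub_zero, div_one] at h3
      exact h3.mono_left nhdsWithin_le_nhds
    refine ge_of_tendsto hcont ?_
    have hlt1 : ∀ᶠ η in 𝓝[>] (0 : ℝ), η < 1 := nhdsWithin_le_nhds (Iio_mem_nhds one_pos)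
    filter_upwards [self_mem_nhdsWithin, hlt1] with η h4 h5
    exact h1 η h4 h5

end Pool.Agent.L7h56.SM
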