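import Pool.Agent.Y708.QE.Gr
import Pool.Agent.Y592.QE.Spec

/-!
# Project SM, part CMP: linear algebra
-/

set_option autoImplicit false

open Set Filter Topology
open Pool.Agent.Y262.QE

noncomputable section

namespace Pool.Agent.L7h56.SM

open Pool.Agent.Y708.QE (inner_grd inv_apply inv_apply')
open Pool.Agent.Y592.QE (b_sum_left b_sum_right)

theorem det_eq2 (C : ℂ →L[ℝ] ℂ) :
    C.det = (C 1).re * (C Complex.I).im - (C Complex.I).re * (C 1).im := by
  have h : C.det = LinearMap.det (C : ℂ →ₗ[ℝ] ℂ) := rfl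
  rw [h, ← LinearMap.det_toMatrix Complex.basisOneI, Matrix.det_fin_two]
  simp [LinearMap.toMatrix_apply]

theorem det_abs_le (C : ℂ →L[ℝ] ℂ) {K : ℝ} (hK : 0 ≤ K) (h : ∀ v, ‖C v‖ ≤ K * ‖v‖) :
    |C.det| ≤ K ^ 2 := by
  rw [det_eq2]
  have h1 := h 1
  have h2 := h Complex.I
  rw [norm_one, mul_one] at h1
  rw [Complex.norm_I, mul_one] at h2
  have e1 : ‖C 1‖ ^ 2 = (C 1).re ^ 2 + (C 1).im ^ 2 := by
    rw [← Complex.normSq_eq_norm_sq, Complex.normSq_apply]; ring
  have e2 : ‖C Complex.I‖ ^ 2 = (C Complex.I).re ^ 2 + (C Complex.I).im ^ 2 := by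
    rw [← Complex.normSq_eq_norm_sq, Complex.normSq_apply]; ring
  have h3 : ‖C 1‖ ^ 2 ≤ K ^ 2 := pow_le_pow_left₀ (norm_nonneg _) h1 2
  have h4 : ‖C Complex.I‖ ^ 2 ≤ K ^ 2 := pow_le_pow_left₀ (norm_nonneg _) h2 2
  apply abs_le_of_sq_le_sq _ (by positivity)
  have h5 : ‖C 1‖ ^ 2 * ‖C Complex.I‖ ^ 2 ≤ K ^ 2 * K ^ 2 :=
    mul_le_mul h3 h4 (by positivity) (by positivity)
  rw [e1, e2] at h5
  have h6 := sq_nonneg ((C 1).re * (C Complex.I).re + (C 1).im * (C Complex.I).im)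
  nlinarith

theorem det_le {A B : ℂ →L[ℝ] ℂ} (hA : A.det ≠ 0) {K : ℝ} (hK : 0 ≤ K)
    (h : ∀ v, ‖B v‖ ≤ K * ‖A v‖) : |B.det| ≤ K ^ 2 * |A.det| := by
  have e : B = (B.comp A.inverse).comp A := by
    ext <;> simp [inv_apply' hA]
  have e2 : B.det = (B.comp A.inverse).det * A.det := by
    conv_lhs => rw [e]
    exact LinearMap.det_comp _ _
  rw [e2, abs_mul]
  refine mul_le_mul_of_nonneg_right (det_abs_le _ hK fun v => ?_) (abs_nonneg _)
  have h1 := h (A.inverse v)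
  rw [inv_apply hA] at h1
  exact h1

theorem grd_le {A B : ℂ →L[ℝ] ℂ} (hA : A.det ≠ 0) (hB : B.det ≠ 0) {K : ℝ}
    (h : ∀ v, ‖A v‖ ≤ K * ‖B v‖) (P : ℂ →L[ℝ] ℝ) : ‖grd B P‖ ≤ K * ‖grd A P‖ := by
  set g := grd B P with hg
  have h1 : ‖g‖ ^ 2 = P (B.inverse g) := by
    rw [← real_inner_self_eq_norm_sq, ← inner_grd]
  have h2 : P (B.inverse g) = inner ℝ (grd A P) (A (B.inverse g)) := by
    rw [inner_grd, inv_apply' hA]
  have h3 : ‖A (B.inverse g)‖ ≤ K * ‖g‖ := by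
    have := h (B.inverse g)
    rwa [inv_apply hB] at this
  have h4 : ‖g‖ ^ 2 ≤ ‖grd A P‖ * (K * ‖g‖) := by
    rw [h1, h2]
    exact (real_inner_le_norm _ _).trans (mul_le_mul_of_nonneg_left h3 (norm_nonneg _))
  rcases (norm_nonneg g).lt_or_eq with h5 | h5
  · nlinarith
  · rw [← h5]
    have h6 : 0 ≤ K * ‖g‖ := (norm_nonneg _).trans h3
    -- `g = 0`; the right-hand side is nonnegative
    by_cases h7 : ‖grd A P‖ = 0
    · rw [h7, mul_zero]
    · have h8 : 0 < ‖A 1‖ := by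
        rw [norm_pos_iff]
        intro h9
        have := inv_apply' hA 1
        rw [h9, map_zero] at this
        exact zero_ne_one this
      have h10 := h 1
      have h11 : 0 ≤ K := by
        by_contra hc
        push Not at hc
        have : K * ‖B 1‖ ≤ 0 := mul_nonpos_of_nonpos_of_nonneg hc.le (norm_nonneg _)
        linarith
      positivity

theorem grd_sum {ι : Type} (A : ℂ →L[ℝ] ℂ) (s : Finset ι) (c : ι → ℝ) (P : ι → ℂ →L[ℝ] ℝ) :
    grd A (∑ k ∈ s, c k • P k) = ∑ k ∈ s, c k • grd A (P k) := by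
  apply Complex.ext
  · simp [grd, Complex.re_sum]
  · simp [grd, Complex.im_sum]

theorem quad_close {n : ℕ} (G G' : Fin n → Fin n → ℝ) {η : ℝ} (h : ∀ i j, |G i j - G' i j| ≤ η)
    (c : Fin n → ℝ) :
    |∑ i, c i * ∑ j, c j * G i j - ∑ i, c i * ∑ j, c j * G' i j| ≤ η * n * ∑ i, (c i) ^ 2 := by
  have e : ∑ i, c i * ∑ j, c j * G i j - ∑ i, c i * ∑ j, c j * G' i j =
      ∑ i, ∑ j, c i * (c j * (G i j - G' i j)) := by
    rw [← Finset.sum_sub_distrib]
    refine Finset.sum_congr rfl fun i _ => ?_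
    rw [← mul_sub, ← Finset.sum_sub_distrib, Finset.mul_sum]
    refine Finset.sum_congr rfl fun j _ => ?_
    ring
  rw [e]
  rcases Nat.eq_zero_or_pos n with hn | hn
  · subst hn
    simp
  have hη : 0 ≤ η := (abs_nonneg _).trans (h ⟨0, hn⟩ ⟨0, hn⟩)
  calc |∑ i, ∑ j, c i * (c j * (G i j - G' i j))|
      ≤ ∑ i, ∑ j, |c i * (c j * (G i j - G' i j))| := by
        refine (Finset.abs_sum_le_sum_abs _ _).trans (Finset.sum_le_sum fun i _ => ?_)
        exact Finset.abs_sum_le_sum_abs _ _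
    _ ≤ ∑ i, ∑ j, η * (|c i| * |c j|) := by
        refine Finset.sum_le_sum fun i _ => Finset.sum_le_sum fun j _ => ?_
        rw [abs_mul, abs_mul]
        have h1 := h i j
        have h2 : 0 ≤ |c i| * |c j| := by positivity
        calc |c i| * (|c j| * |G i j - G' i j|) = (|c i| * |c j|) * |G i j - G' i j| := by ring
          _ ≤ (|c i| * |c j|) * η := mul_le_mul_of_nonneg_left h1 h2
          _ = _ := by ring
    _ = η * (∑ i, |c i|) ^ 2 := by
        rw [pow_two, Finset.sum_mul_sum, Finset.mul_sum]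
        refine Finset.sum_congr rfl fun i _ => ?_
        rw [Finset.mul_sum]
    _ ≤ η * (n * ∑ i, (c i) ^ 2) := by
        refine mul_le_mul_of_nonneg_left ?_ hη
        have h1 := sq_sum_le_card_mul_sum_sq (s := (Finset.univ : Finset (Fin n)))
          (f := fun i => |c i|)
        simpa using h1
    _ = _ := by ring

section forms

variable {H : Type} [NormedAddCommGroup H] [InnerProductSpace ℝ H]

theorem form_expand (a : H →L[ℝ] H →L[ℝ] ℝ) {n : ℕ} (c : Fin n → ℝ) (v : Fin n → H) :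
    a (∑ i, c i • v i) (∑ i, c i • v i) = ∑ i, c i * ∑ j, c j * a (v i) (v j) := by
  rw [b_sum_left]
  refine Finset.sum_congr rfl fun i _ => ?_
  rw [b_sum_right]

/-- the Gram matrices of an approximation of the first eigenvectors -/
theorem approx {a b : H →L[ℝ] H →L[ℝ] ℝ} {e : ℕ → H} {E : ℕ → ℝ} (hE : Eg a b e E) (k : ℕ)
    (f : Fin (k + 1) → ℕ → H) (hf : ∀ i : Fin (k + 1), Tendsto (f i) atTop (𝓝 (e i))) {η : ℝ} (hη : 0 < η) :
    ∀ᶠ n in atTop, ∀ c : Fin (k + 1) → ℝ,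
      (1 - η) * ∑ i, (c i) ^ 2 ≤ b (∑ i, c i • f i n) (∑ i, c i • f i n) ∧
      a (∑ i, c i • f i n) (∑ i, c i • f i n) ≤ (E k + η) * ∑ i, (c i) ^ 2 := by
  have hk : (0 : ℝ) < ((k + 1 : ℕ) : ℝ) := by positivity
  have hη' : 0 < η / ((k + 1 : ℕ) : ℝ) := by positivity
  have conv : ∀ (q : H →L[ℝ] H →L[ℝ] ℝ) (i j : Fin (k + 1)),
      Tendsto (fun n => q (f i n) (f j n)) atTop (𝓝 (q (e i) (e j))) := by
    intro q i j
    have h1 : Continuous fun p : H × H => q p.1 p.2 := by fun_prop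
    exact (h1.tendsto ((e i : H), (e j : H))).comp ((hf i).prodMk_nhds (hf j))
  have ev : ∀ (q : H →L[ℝ] H →L[ℝ] ℝ), ∀ᶠ n in atTop, ∀ i j : Fin (k + 1),
      |q (f i n) (f j n) - q (e i) (e j)| ≤ η / ((k + 1 : ℕ) : ℝ) := by
    intro q
    rw [eventually_all]
    intro i
    rw [eventually_all]
    intro j
    have h1 := (Metric.tendsto_nhds.1 (conv q i j)) _ hη'
    filter_upwards [h1] with n hn
    rw [Real.dist_eq] at hn
    exact hn.le
  filter_upwards [ev a, ev b] with n h1 h2 c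
  have h3 := quad_close _ _ h1 c
  have h4 := quad_close _ _ h2 c
  rw [← form_expand a c fun i => f i n, ← form_expand a c fun i : Fin (k + 1) => e i] at h3
  rw [← form_expand b c fun i => f i n, ← form_expand b c fun i : Fin (k + 1) => e i] at h4
  have h5 : η / ((k + 1 : ℕ) : ℝ) * ((k + 1 : ℕ) : ℝ) = η := by field_simp
  rw [h5] at h3 h4
  have h6 : b (∑ i : Fin (k + 1), c i • e i) (∑ i : Fin (k + 1), c i • e i) = ∑ i, (c i) ^ 2 :=
    Pool.Agent.Y592.QE.b_orth_self b (Pool.Agent.Y592.QE.orth_fin b hE.orth (k + 1)) c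
  have h7 : a (∑ i : Fin (k + 1), c i • e i) (∑ i : Fin (k + 1), c i • e i) ≤
      E k * ∑ i, (c i) ^ 2 := by
    rw [form_expand, Finset.mul_sum]
    refine Finset.sum_le_sum fun i _ => ?_
    have h8 : ∑ j : Fin (k + 1), c j * a (e i) (e j) = c i * E i := by
      rw [Finset.sum_eq_single i]
      · rw [hE.eig, hE.orth, if_pos rfl, mul_one]
      · intro j _ hj
        rw [hE.eig, hE.orth, if_neg (fun h => hj (Fin.ext h.symm)), mul_zero, mul_zero]
      · intro h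
        exact absurd (Finset.mem_univ i) h
    rw [h8]
    have h9 : E i ≤ E k := hE.mono (Nat.lt_succ_iff.1 i.2)
    nlinarith [mul_le_mul_of_nonneg_right h9 (sq_nonneg (c i))]
  rw [h6] at h4
  constructor
  · have := (abs_le.1 h4).1
    linarith
  · have := (abs_le.1 h3).2
    linarith

end forms

end Pool.Agent.L7h56.SM
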